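import Pool.Agent.H68.QC.Targets

/-!
# Quantum gates under formulas
-/

set_option autoImplicit false

namespace Pool.Agent.H86.QC

open Finset Pool.Agent.H68.QC Pool.Agent.H70.OQ Pool.Agent.H70.RK Pool.Agent.H6.NB

theorem node_nonempty' (X : Type) (Y : ℕ → Type) [Nonempty X] [∀ i, Nonempty (Y i)] (i : ℕ) :
    Nonempty (Node X Y i) := by
  induction i with
  | zero => exact ‹Nonempty X›
  | succ i ih => exact (inferInstance : Nonempty (Node X Y i × Y i))

theorem pf_BSJ (hGSL : T_GSL) (hQST : T_QST) (hFMT : T_FMT) : T_BSJ := by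
  intro X Y _ _ _ _ _ _ mw m t D G G' K i T q q' alg hmw hA hT ht hD hq hq2 hqT hq' hDq hK hG hG'
  have hne := node_nonempty' X Y i
  have hD1 : (1 : ℝ) ≤ D := by exact_mod_cast hD
  have hq1 : q' ≤ 1 := by nlinarith
  have hE : 0 ≤ errT X Y (2 ^ (m + 1)) D G q' i := by
    unfold errT
    have h1 : 0 ≤ 1 - q' := by linarith
    positivity
  have h := hGSL X Y true K i (Fintype.card (Node X Y i)) (G' * Fintype.card (Node X Y i)) G' q
    (2 ^ ((m + 1) * (i + 1)) * (4 / 2 ^ D)) (errT X Y (2 ^ (m + 1)) D G q' i)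
    (FmC (Node X Y (i + 1)) (2 ^ (m + 1)) D (i + 1))
    (Fam (Node X Y (i + 1)) (Yes mw (i + 1) alg) (No mw (i + 1) alg) t 0)
    hq.le (by linarith) hE Fintype.card_pos (Nat.mul_pos hG' Fintype.card_pos) le_rfl
    (hFMT X Y (2 ^ (m + 1)) D G K q' hD hq' hDq hK i hG) ?_
  · exact h
  · intro V1 V0 hC
    exact hQST (Node X Y (i + 1)) mw m (i + 1) t D T q alg V1 V0 hmw hA hT ht hD hq hq2 hqT hC

end Pool.Agent.H86.QC
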