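import Pool.Agent.H68.QC.Targets
import Pool.Agent.H70.OQ.SPC

/-!
# An oracle and its section
-/

set_option autoImplicit false

namespace Pool.Agent.H86.QC

open Pool.Agent.H68.QC Pool.Agent.H70.OQ Pool.Agent.H70.RC

theorem pf_SCX : T_SCX := by
  intro l n O X hX
  have h1 : ∀ u : List Bool, u.length = n → (Special l O u ↔ Special l (orc (nod n l) X) u) := by
    intro u hu
    refine Pool.Agent.H70.OQ.SPC.spc l O (orc (nod n l) X) u fun w hw => ?_
    have hw' : w.length = nod n l := by rw [hw, hu]; rfl
    have h2 : orc (nod n l) X (false :: w) = X fun i => w.getD i false := by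
      change (if w.length = nod n l then (X fun i => w.getD i false) else false) = _
      rw [if_pos hw']
    rw [h2, ← hX]
    change O (false :: w) = O (false :: List.ofFn fun i : Fin (nod n l) => w.getD i false)
    have h3 : (List.ofFn fun i : Fin (nod n l) => w.getD i false) = w := by
      apply List.ext_getElem
      · rw [List.length_ofFn, hw']
      · intro i h4 h5
        rw [List.getElem_ofFn]
        simp [List.getD_eq_getElem?_getD, List.getElem?_eq_getElem h5]
    rw [h3]
  refine ⟨h1, ?_⟩
  refine exists_congr fun u => and_congr_right fun hu => and_congr_right fun _ => h1 u ?_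
  rw [hu, List.length_replicate]

end Pool.Agent.H86.QC
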