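import Pool.Agent.H68.QC.Targets

/-!
# One step for a family of questions
-/

set_option autoImplicit false

namespace Pool.Agent.H86.QC

open Finset Pool.Agent.H68.QC Pool.Agent.H70.OQ Pool.Agent.H70.RK Pool.Agent.H6.NB

theorem node_nonempty (X : Type) (Y : ℕ → Type) [Nonempty X] [∀ i, Nonempty (Y i)] (i : ℕ) :
    Nonempty (Node X Y i) := by
  induction i with
  | zero => exact ‹Nonempty X›
  | succ i ih => exact (inferInstance : Nonempty (Node X Y i × Y i))

theorem pf_STP (hGST : T_GST) (hRDF : T_RDF) : T_STP := by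
  intro X Y _ _ _ _ _ _ Φ1 Φ0 b K i m t w r t' G' G q E ht hw hq hwq htw h1 h0 hE hG' hG hT
  have hne := node_nonempty X Y i
  have hne' := node_nonempty X Y (i + 1)
  have hw1 : (1 : ℝ) ≤ w := by exact_mod_cast ht.trans hw
  have hq1 : q ≤ 1 := by nlinarith
  refine hGST X Y b K i (G' * Fintype.card (Node X Y i)) (G' * Fintype.card (Node X Y (i + 1))) G q
    (erho m t w r) E (Fam (Node X Y (i + 1)) Φ1 Φ0 t' r) (Fam (Node X Y (i + 2)) Φ1 Φ0 t (r + 1))
    hq.le hq1 hE (Nat.mul_pos hG' Fintype.card_pos) (Nat.mul_pos hG' Fintype.card_pos) hG hT ?_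
  intro L V1 V0 hC hL
  exact hRDF (Node X Y (i + 1)) (Y (i + 1)) Φ1 Φ0 m t w r t' q L V1 V0 ht hw hq hwq
    (fun a => (Nat.le_mul_of_pos_left _ hG').trans (hL a)) htw h1 h0 hC

end Pool.Agent.H86.QC
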