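import Pool.Agent.H68.QC.Targets

/-!
# The numbers of the sections
-/

set_option autoImplicit false

namespace Pool.Agent.H86.QC

open Pool.Agent.H68.QC Pool.Agent.H70.OQ

theorem odd_pow_eq {r r' x y : ℕ} (hx : x % 2 = 1) (hy : y % 2 = 1)
    (h : x * 2 ^ r = y * 2 ^ r') : r = r' ∧ x = y := by
  induction r generalizing r' with
  | zero =>
    cases r' with
    | zero => simpa using h
    | succ r' =>
      exfalso
      rw [pow_zero, mul_one, pow_succ, ← mul_assoc] at h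
      omega
  | succ r ih =>
    cases r' with
    | zero =>
      exfalso
      rw [pow_zero, mul_one, pow_succ, ← mul_assoc] at h
      omega
    | succ r' =>
      rw [pow_succ, pow_succ, ← mul_assoc, ← mul_assoc] at h
      obtain ⟨h1, h2⟩ := ih (Nat.eq_of_mul_eq_mul_right (by norm_num) h)
      exact ⟨by rw [h1], h2⟩

theorem pf_UNI : T_UNI := by
  intro a b l r l' r' ha hb hl hl' h
  obtain ⟨m, hm⟩ : ∃ m, 2 ^ (l + 1) = 4 * m := by
    obtain ⟨e, rfl⟩ : ∃ e, l = e + 1 := ⟨l - 1, by omega⟩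
    exact ⟨2 ^ e, by ring⟩
  obtain ⟨m', hm'⟩ : ∃ m', 2 ^ (l' + 1) = 4 * m' := by
    obtain ⟨e, rfl⟩ : ∃ e, l' = e + 1 := ⟨l' - 1, by omega⟩
    exact ⟨2 ^ e, by ring⟩
  have hp : 0 < 2 ^ (l + 1) := by positivity
  have hp' : 0 < 2 ^ (l' + 1) := by positivity
  have h1 : ((2 ^ (l + 1) - 1) * a) * 2 ^ r = ((2 ^ (l' + 1) - 1) * b) * 2 ^ r' := by
    rw [mul_assoc, mul_assoc]
    exact h
  have ho : ((2 ^ (l + 1) - 1) * a) % 2 = 1 := by
    rcases ha with rfl | rfl <;> omega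
  have ho' : ((2 ^ (l' + 1) - 1) * b) % 2 = 1 := by
    rcases hb with rfl | rfl <;> omega
  obtain ⟨h2, h3⟩ := odd_pow_eq ho ho' h1
  have h4 : a = b ∧ 2 ^ (l + 1) = 2 ^ (l' + 1) := by
    rcases ha with rfl | rfl <;> rcases hb with rfl | rfl <;> omega
  refine ⟨h4.1, ?_, h2⟩
  have h5 := Nat.pow_right_injective le_rfl h4.2
  omega

end Pool.Agent.H86.QC
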